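import Pool.Agent.H31.MaderBasic

set_option autoImplicit false

namespace Pool.Agent.H31.Mader

open Vt

structure BackCut (S : Finset Vt) (P : F → F → Fin 17 → Prop) : Prop where
  inA : ∀ α β t α' β' t', P α β t → adj (a α' β' t') (a α β t) → P α' β' t' ∨ a α' β' t' ∈ S
  inZ : ∀ α β t s v, P α β t → adj (z s v) (a α β t) → z s v ∈ S

variable {S : Finset Vt} {P : F → F → Fin 17 → Prop}

lemma BackCut.missed (h : BackCut S P) {α β : F} {t t1 : Fin 17} (ht : t.val < 15)
    (hP : ¬ P α β t) (hS : a α β t ∉ S) (h1 : P α β t1) : t.val < 13 ∧ t1.val = (t.val + 1) % 13 := by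
  by_contra hcon
  have hne : t.val ≠ t1.val := by
    intro e
    have : t = t1 := Fin.ext e
    subst this
    exact hP h1
  have hadj : adj (a α β t) (a α β t1) := ⟨rfl, Or.inl ⟨rfl, ht, hne, hcon⟩⟩
  rcases h.inA _ _ _ _ _ _ h1 hadj with h2 | h2
  · exact hP h2
  · exact hS h2

lemma BackCut.eight (h : BackCut S P) {α β : F} {t1 : Fin 17} (h1 : P α β t1) :
    ∃ e : Fin 8 → Vt, Function.Injective e ∧ ∀ τ, e τ ∈ S ∧
      (e τ = z τ (α * c τ.val + β) ∨ ∃ t, e τ = a α β t) := by
  classical
  let ca : Fin 8 → Fin 17 := fun τ => ⟨τ.val, by omega⟩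
  let e : Fin 8 → Vt := fun τ =>
    if a α β (ca τ) ∈ S then a α β (ca τ) else
      if P α β (ca τ) then z τ (α * c τ.val + β) else a α β 13
  refine ⟨e, ?_, ?_⟩
  · intro τ τ' hτ
    simp only [e] at hτ
    split_ifs at hτ with c1 c2 c3 c4 c5 c6 c7 c8
    · injection hτ with _ _ e3
      have := congrArg Fin.val e3
      exact Fin.ext this
    · injection hτ with _ _ e3
      have := congrArg Fin.val e3
      simp only [ca, Fin.isValue] at this
      have h13 : ((13 : Fin 17) : ℕ) = 13 := rfl
      omega
    · injection hτ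
    · injection hτ with _ _ e3
      have := congrArg Fin.val e3
      simp only [ca, Fin.isValue] at this
      have h13 : ((13 : Fin 17) : ℕ) = 13 := rfl
      omega
    · have q1 := h.missed (t := ca τ) (by show τ.val < 15; omega) (by assumption) c1 h1
      have q2 := h.missed (t := ca τ') (by show τ'.val < 15; omega) (by assumption) (by assumption) h1
      apply Fin.ext
      have e1 : (ca τ).val = τ.val := rfl
      have e2 : (ca τ').val = τ'.val := rfl
      omega
  · intro τ
    simp only [e]
    split_ifs with c1 c2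
    · exact ⟨c1, Or.inr ⟨_, rfl⟩⟩
    · exact ⟨h.inZ _ _ _ _ _ c2 ⟨rfl, rfl⟩, Or.inl rfl⟩
    · refine ⟨?_, Or.inr ⟨_, rfl⟩⟩
      have q1 := h.missed (t := ca τ) (by show τ.val < 15; omega) c2 c1 h1
      have h13 : ((13 : Fin 17) : ℕ) = 13 := rfl
      have hadj : adj (a α β 13) (a α β t1) := ⟨rfl, Or.inl ⟨rfl, by omega, by omega, by omega⟩⟩
      rcases h.inA _ _ _ _ _ _ h1 hadj with h2 | h2
      · exfalso
        have q2 := h.missed (t := ca τ) (by show τ.val < 15; omega) c2 c1 h2
        omega
      · exact h2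

lemma BackCut.two (h : BackCut S P) {α β α' β' : F} {t1 t1' : Fin 17} (h1 : P α β t1)
    (h1' : P α' β' t1') (hne : ¬ (α' = α ∧ β' = β)) : 15 ≤ S.card := by
  classical
  obtain ⟨e, he, hS⟩ := h.eight h1
  obtain ⟨e', he', hS'⟩ := h.eight h1'
  have k1 : (Finset.univ.image e).card = 8 := by
    rw [Finset.card_image_of_injective _ he]; rfl
  have k2 : (Finset.univ.image e').card = 8 := by
    rw [Finset.card_image_of_injective _ he']; rfl
  have k3 : (Finset.univ.image e ∩ Finset.univ.image e').card ≤ 1 := by
    rw [Finset.card_le_one]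
    have key : ∀ x ∈ Finset.univ.image e ∩ Finset.univ.image e', ∃ τ : Fin 8,
        x = z τ (α * c τ.val + β) ∧ α * c τ.val + β = α' * c τ.val + β' := by
      intro x hx
      rw [Finset.mem_inter, Finset.mem_image, Finset.mem_image] at hx
      obtain ⟨⟨τ, -, rfl⟩, ⟨τ', -, hx⟩⟩ := hx
      rcases (hS τ).2 with e1 | ⟨t, e1⟩ <;> rcases (hS' τ').2 with e2 | ⟨t', e2⟩
      · rw [e1, e2] at hx
        injection hx with x1 x2
        subst x1
        exact ⟨τ', e1, x2.symm⟩
      · rw [e1, e2] at hx; injection hx
      · rw [e1, e2] at hx; injection hx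
      · rw [e1, e2] at hx
        injection hx with x1 x2
        exact absurd ⟨x1, x2⟩ hne
    intro x hx y hy
    obtain ⟨τ, rfl, e1⟩ := key x hx
    obtain ⟨τ', rfl, e2⟩ := key y hy
    have hα : α ≠ α' := by
      rintro rfl
      apply hne
      refine ⟨rfl, ?_⟩
      have := add_left_cancel e1
      exact this.symm
    have e3 : (α - α') * (c τ.val - c τ'.val) = 0 := by linear_combination e1 - e2
    rcases mul_eq_zero.1 e3 with e4 | e4
    · exact absurd (sub_eq_zero.1 e4) hα
    · have e5 := c_inj (by omega) (by omega) (sub_eq_zero.1 e4)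
      have e6 : τ = τ' := Fin.ext e5
      rw [e6]
  have k4 := Finset.card_union_add_card_inter (Finset.univ.image e) (Finset.univ.image e')
  have k5 : (Finset.univ.image e ∪ Finset.univ.image e') ⊆ S := by
    intro x hx
    rw [Finset.mem_union, Finset.mem_image, Finset.mem_image] at hx
    rcases hx with ⟨τ, -, rfl⟩ | ⟨τ, -, rfl⟩
    · exact (hS τ).1
    · exact (hS' τ).1
  have k6 := Finset.card_le_card k5
  omega

lemma BackCut.one (h : BackCut S P) {α β : F} {t1 : Fin 17} (h1 : P α β t1)
    (hall : ∀ α' β' t', P α' β' t' → α' = α ∧ β' = β) : 15 ≤ S.card := by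
  classical
  let ca : Fin 15 → Fin 17 := fun τ => ⟨τ.val, by omega⟩
  let nx : Fin 15 → ℕ := fun τ => (τ.val + 1) % 13
  let e : Fin 15 → Vt := fun τ =>
    if a α β (ca τ) ∈ S then a α β (ca τ) else
      if P α β (ca τ) then a α (β - c τ.val) 15 else
        if h8 : nx τ < 8 then z ⟨nx τ, h8⟩ (α * c (nx τ) + β) else a α (β - c (nx τ)) 16
  have h15 : ((15 : Fin 17) : ℕ) = 15 := rfl
  have h16 : ((16 : Fin 17) : ℕ) = 16 := rfl
  refine fifteen_le (Finset.univ : Finset (Fin 15)) e 15 (by simp) ?_ ?_
  · intro τ _
    simp only [e]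
    split_ifs with c1 c2 c3
    · exact c1
    · have hadj : adj (a α (β - c τ.val) 15) (a α β (ca τ)) :=
        ⟨rfl, Or.inr ⟨by show β = β - c τ.val + c τ.val; ring, Or.inl ⟨rfl, τ.2⟩⟩⟩
      rcases h.inA _ _ _ _ _ _ c2 hadj with h2 | h2
      · exfalso
        have := (hall _ _ _ h2).2
        exact c_ne (t := τ.val) (by omega) (by linear_combination -this)
      · exact h2
    · have q1 := h.missed (t := ca τ) τ.2 c2 c1 h1
      have e1 : (ca τ).val = τ.val := rfl
      have e2 : t1.val = nx τ := q1.2
      refine h.inZ _ _ _ _ _ h1 ⟨e2.symm, ?_⟩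
      rw [e2]
    · have q1 := h.missed (t := ca τ) τ.2 c2 c1 h1
      have e1 : (ca τ).val = τ.val := rfl
      have e2 : t1.val = nx τ := q1.2
      have e3 : nx τ < 13 := Nat.mod_lt _ (by norm_num)
      have hadj : adj (a α (β - c (nx τ)) 16) (a α β t1) := by
        refine ⟨rfl, Or.inr ⟨?_, Or.inr ⟨rfl, by omega, by omega⟩⟩⟩
        rw [e2]; ring
      rcases h.inA _ _ _ _ _ _ h1 hadj with h2 | h2
      · exfalso
        have := (hall _ _ _ h2).2
        exact c_ne (t := nx τ) (by omega) (by linear_combination -this)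
      · exact h2
  · intro τ _ τ' _ hτ
    have e1 : (ca τ).val = τ.val := rfl
    have e2 : (ca τ').val = τ'.val := rfl
    have l1 := τ.2
    have l2 := τ'.2
    simp only [e] at hτ
    by_cases c1 : a α β (ca τ) ∈ S
    · rw [if_pos c1] at hτ
      split_ifs at hτ with c4 c5 c6
      · injection hτ with _ _ e3
        have := congrArg Fin.val e3
        exact Fin.ext this
      · injection hτ with _ _ e3
        have := congrArg Fin.val e3
        omega
      · injection hτ with _ _ e3
        have := congrArg Fin.val e3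
        omega
    · rw [if_neg c1] at hτ
      by_cases c2 : P α β (ca τ)
      · rw [if_pos c2] at hτ
        split_ifs at hτ with c4 c5 c6
        · injection hτ with _ _ e3
          have := congrArg Fin.val e3
          omega
        · injection hτ with _ e4 _
          apply Fin.ext
          exact c_inj (by omega) (by omega) (by linear_combination -e4)
        · injection hτ with _ _ e3
          have := congrArg Fin.val e3
          omega
      · rw [if_neg c2] at hτ
        have q1 := h.missed (t := ca τ) τ.2 c2 c1 h1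
        by_cases c4 : a α β (ca τ') ∈ S
        · rw [if_pos c4] at hτ
          split_ifs at hτ with c5
          · injection hτ with _ _ e3
            have := congrArg Fin.val e3
            omega
        · rw [if_neg c4] at hτ
          by_cases c5 : P α β (ca τ')
          · rw [if_pos c5] at hτ
            split_ifs at hτ with c6
            · injection hτ with _ _ e3
              have := congrArg Fin.val e3
              omega
          · have q2 := h.missed (t := ca τ') τ'.2 c5 c4 h1
            apply Fin.ext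
            omega

lemma BackCut.card (h : BackCut S P) {α β : F} {t : Fin 17} (h1 : P α β t) : 15 ≤ S.card := by
  by_cases hall : ∀ α' β' t', P α' β' t' → α' = α ∧ β' = β
  · exact h.one h1 hall
  · push Not at hall
    obtain ⟨α', β', t', h2, h3⟩ := hall
    exact h.two h1 h2 (fun h4 => h3 h4.1 h4.2)

/-- Every surviving vertex on the `a`-side is reached from a surviving point. -/
lemma from_z (hS : S.card < 15) {α β : F} {t : Fin 17} (hm : a α β t ∉ S) :
    ∃ s v, z s v ∉ S ∧ Reach S (z s v) (a α β t) := by
  by_contra hcon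
  push Not at hcon
  let P : F → F → Fin 17 → Prop := fun α β t => a α β t ∉ S ∧
    ∀ s v, z s v ∉ S → ¬ Reach S (z s v) (a α β t)
  have hc : BackCut S P := by
    constructor
    · intro α β t α' β' t' h1 hadj
      by_cases h2 : a α' β' t' ∈ S
      · exact Or.inr h2
      · refine Or.inl ⟨h2, fun s v hz hr => h1.2 s v hz (hr.tail ⟨h2, h1.1, hadj⟩)⟩
    · intro α β t s v h1 hadj
      by_contra h2
      exact h1.2 s v h2 (Relation.ReflTransGen.single ⟨h2, h1.1, hadj⟩)
  have := hc.card (α := α) (β := β) (t := t) ⟨hm, hcon⟩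
  omega

end Pool.Agent.H31.Mader
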