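import Mathlib

set_option autoImplicit false

namespace Pool.Agent.H31.Mader

abbrev F := ZMod 29

instance : Fact (Nat.Prime 29) := ⟨by norm_num⟩

/-- Vertices: `a α β t` and `b α β t` lie in the leaf of the line `(α, β)`, `z s v` is a point. -/
inductive Vt : Type
  | a (α β : F) (t : Fin 17)
  | b (α β : F) (t : Fin 17)
  | z (s : Fin 8) (v : F)
  deriving DecidableEq, Fintype

def c (t : ℕ) : F := ((t + 1 : ℕ) : F)

def Inn (t t' : ℕ) : Prop := t < 15 ∧ t ≠ t' ∧ ¬ (t < 13 ∧ t' = (t + 1) % 13)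

open Vt

def adj : Vt → Vt → Prop
  | .a α β t, .a α' β' t' => α' = α ∧ ((β' = β ∧ Inn t.val t'.val) ∨
      (β' = β + c t'.val ∧ ((t.val = 15 ∧ t'.val < 15) ∨ (t.val = 16 ∧ 8 ≤ t'.val ∧ t'.val < 13))))
  | .b α β t, .b α' β' t' => α = α' ∧ ((β = β' ∧ Inn t'.val t.val) ∨
      (β = β' + c t.val ∧ ((t'.val = 15 ∧ t.val < 15) ∨ (t'.val = 16 ∧ 8 ≤ t.val ∧ t.val < 13))))
  | .z s v, .a α β t => s.val = t.val ∧ v = α * c t.val + β
  | .b α β t, .z s v => s.val = t.val ∧ v = α * c t.val + β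
  | .a _ β t, .z s v => t.val = 0 ∧ s.val = 0 ∧ v = β
  | .z s v, .b _ β t => t.val = 0 ∧ s.val = 0 ∧ v = β
  | .a α β t, .b α' β' t' => α' = α ∧
      ((β' = β ∧ ((t.val = 1 ∧ t'.val = 15) ∨ (t.val = 15 ∧ t'.val = 1))) ∨
       (β' = β + c t.val ∧ 2 ≤ t.val ∧ t.val < 13 ∧ t'.val = 16) ∨
       (β = β' + c t'.val ∧ 2 ≤ t'.val ∧ t'.val < 13 ∧ t.val = 16))
  | .b _ _ _, .a _ _ _ => False
  | .z _ _, .z _ _ => False

def sw : Vt → Vt
  | .a α β t => .b α β t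
  | .b α β t => .a α β t
  | .z s v => .z s v

@[simp] lemma sw_sw (x : Vt) : sw (sw x) = x := by cases x <;> rfl

lemma sw_inj : Function.Injective sw := Function.LeftInverse.injective sw_sw

lemma adj_sw (x y : Vt) : adj (sw x) (sw y) ↔ adj y x := by
  cases x <;> cases y <;> simp only [sw, adj]
  rename_i α β t α' β' t'
  constructor
  · rintro ⟨rfl, h⟩
    refine ⟨rfl, ?_⟩
    rcases h with ⟨rfl, h⟩ | ⟨h1, h2⟩ | ⟨h1, h2⟩
    · exact Or.inl ⟨rfl, h.symm.imp (fun h => ⟨h.2, h.1⟩) (fun h => ⟨h.2, h.1⟩)⟩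
    · exact Or.inr (Or.inr ⟨h1, h2⟩)
    · exact Or.inr (Or.inl ⟨h1, h2⟩)
  · rintro ⟨rfl, h⟩
    refine ⟨rfl, ?_⟩
    rcases h with ⟨rfl, h⟩ | ⟨h1, h2⟩ | ⟨h1, h2⟩
    · exact Or.inl ⟨rfl, h.symm.imp (fun h => ⟨h.2, h.1⟩) (fun h => ⟨h.2, h.1⟩)⟩
    · exact Or.inr (Or.inr ⟨h1, h2⟩)
    · exact Or.inr (Or.inl ⟨h1, h2⟩)

lemma adj_irrefl (x : Vt) : ¬ adj x x := by
  cases x with
  | a α β t =>
    rintro ⟨-, ⟨-, h⟩ | ⟨-, h⟩⟩
    · exact h.2.1 rfl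
    · omega
  | b α β t =>
    rintro ⟨-, ⟨-, h⟩ | ⟨-, h⟩⟩
    · exact h.2.1 rfl
    · omega
  | z s v => exact id

lemma c_inj {t t' : ℕ} (h : t < 28) (h' : t' < 28) (e : c t = c t') : t = t' := by
  unfold c at e
  have e2 := (ZMod.natCast_eq_natCast_iff' (t + 1) (t' + 1) 29).1 e
  omega

lemma c_ne {t : ℕ} (h : t < 28) : c t ≠ 0 := by
  unfold c
  intro e
  have e1 : ((t + 1 : ℕ) : F) = ((0 : ℕ) : F) := by rw [e]; simp
  have e2 := (ZMod.natCast_eq_natCast_iff' (t + 1) 0 29).1 e1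
  omega

/-- The step relation after deleting `S`. -/
def R (S : Finset Vt) (x y : Vt) : Prop := x ∉ S ∧ y ∉ S ∧ adj x y

abbrev Reach (S : Finset Vt) := Relation.ReflTransGen (R S)

lemma reach_sw {S : Finset Vt} {x y : Vt} (h : Reach (S.image sw) x y) : Reach S (sw y) (sw x) := by
  induction h with
  | refl => exact Relation.ReflTransGen.refl
  | tail _ h2 ih =>
    refine Relation.ReflTransGen.head ?_ ih
    obtain ⟨h3, h4, h5⟩ := h2
    refine ⟨?_, ?_, ?_⟩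
    · intro h; apply h4; rw [Finset.mem_image]; exact ⟨_, h, sw_sw _⟩
    · intro h; apply h3; rw [Finset.mem_image]; exact ⟨_, h, sw_sw _⟩
    · rw [adj_sw]; exact h5

lemma card_sw (S : Finset Vt) : (S.image sw).card = S.card :=
  Finset.card_image_of_injective _ sw_inj

lemma mem_sw {S : Finset Vt} {x : Vt} : x ∈ S.image sw ↔ sw x ∈ S := by
  rw [Finset.mem_image]
  constructor
  · rintro ⟨y, hy, rfl⟩; rwa [sw_sw]
  · intro h; exact ⟨_, h, sw_sw _⟩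

lemma fifteen_le {ι : Type*} {S : Finset Vt} (I : Finset ι) (e : ι → Vt) (k : ℕ) (hI : k ≤ I.card)
    (hS : ∀ i ∈ I, e i ∈ S) (hinj : ∀ i ∈ I, ∀ j ∈ I, e i = e j → i = j) : k ≤ S.card :=
  hI.trans (Finset.card_le_card_of_injOn e (fun i hi => hS i hi) (fun i hi j hj h => hinj i hi j hj h))

end Pool.Agent.H31.Mader
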