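import Pool.Agent.H31.MaderFwd

set_option autoImplicit false

namespace Pool.Agent.H31.Mader

open Vt

/-- The arc `(x, y)` is needed. -/
def Crit (x y : Vt) : Prop :=
  ¬ (∀ S : Finset Vt, S.card < 15 → ∀ u v : Vt, u ∉ S → v ∉ S →
    Relation.ReflTransGen (fun a b => a ∉ S ∧ b ∉ S ∧ adj a b ∧ ¬ (a = x ∧ b = y)) u v)

lemma crit_sw {x y : Vt} (h : Crit (sw y) (sw x)) : Crit x y := by
  intro hall
  apply h
  intro S hS u v hu hv
  have h1 := hall (S.image sw) (by rw [card_sw]; exact hS) (sw v) (sw u)
    (by rw [mem_sw, sw_sw]; exact hv) (by rw [mem_sw, sw_sw]; exact hu)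
  have key : ∀ p q : Vt, Relation.ReflTransGen (fun a b => a ∉ S.image sw ∧ b ∉ S.image sw ∧
      adj a b ∧ ¬ (a = x ∧ b = y)) p q → Relation.ReflTransGen (fun a b => a ∉ S ∧ b ∉ S ∧
      adj a b ∧ ¬ (a = sw y ∧ b = sw x)) (sw q) (sw p) := by
    intro p q hpq
    induction hpq with
    | refl => exact Relation.ReflTransGen.refl
    | tail _ h2 ih =>
      refine Relation.ReflTransGen.head ?_ ih
      obtain ⟨h3, h4, h5, h6⟩ := h2
      refine ⟨?_, ?_, ?_, ?_⟩
      · rwa [mem_sw] at h4
      · rwa [mem_sw] at h3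
      · rw [adj_sw]; exact h5
      · rintro ⟨h7, h8⟩
        exact h6 ⟨sw_inj h8, sw_inj h7⟩
  have h2 := key _ _ h1
  rwa [sw_sw, sw_sw] at h2

lemma crit_in {x y : Vt} (hxy : adj x y) (N : Finset Vt) (hN : N.card ≤ 15)
    (hsub : ∀ p, adj p y → p ∈ N) : Crit x y := by
  classical
  intro hall
  let S : Finset Vt := (N.filter (fun p => adj p y)).erase x
  have hx : x ∈ N.filter (fun p => adj p y) := Finset.mem_filter.2 ⟨hsub x hxy, hxy⟩
  have hS : S.card < 15 := by
    have h1 := Finset.card_erase_lt_of_mem hx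
    have h2 := Finset.card_filter_le N (fun p => adj p y)
    show ((N.filter (fun p => adj p y)).erase x).card < 15
    omega
  have h1 := hall S hS x y (Finset.notMem_erase x _) (by
    intro h
    have := (Finset.mem_filter.1 (Finset.mem_of_mem_erase h)).2
    exact adj_irrefl _ this)
  rcases h1.cases_tail with h2 | ⟨p, -, h3, -, h5, h6⟩
  · subst h2
    exact adj_irrefl _ hxy
  · apply h3
    refine Finset.mem_erase.2 ⟨fun h7 => h6 ⟨h7, rfl⟩, Finset.mem_filter.2 ⟨hsub p h5, h5⟩⟩

lemma in_a (α β : F) (t : Fin 17) : ∃ N : Finset Vt, N.card ≤ 15 ∧ ∀ p, adj p (a α β t) → p ∈ N := by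
  classical
  let ca : Fin 15 → Fin 17 := fun τ => ⟨τ.val, by omega⟩
  let N : Fin 15 → Vt := fun τ =>
    if τ.val = t.val then a α (β - c t.val) 15 else
      if τ.val < 13 ∧ t.val = (τ.val + 1) % 13 then
        (if h : t.val < 8 then z ⟨t.val, h⟩ (α * c t.val + β) else a α (β - c t.val) 16)
      else a α β (ca τ)
  have h15 : ((15 : Fin 17) : ℕ) = 15 := rfl
  have h16 : ((16 : Fin 17) : ℕ) = 16 := rfl
  refine ⟨Finset.univ.image N, Finset.card_image_le.trans (by simp), ?_⟩
  intro p hp
  rw [Finset.mem_image]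
  rcases p with ⟨α', β', t'⟩ | ⟨α', β', t'⟩ | ⟨s, v⟩
  · obtain ⟨rfl, h⟩ := hp
    rcases h with ⟨rfl, h1, h2, h3⟩ | ⟨h1, ⟨h2, h3⟩ | ⟨h2, h3, h4⟩⟩
    · refine ⟨⟨t'.val, h1⟩, Finset.mem_univ _, ?_⟩
      simp only [N, ca]
      rw [if_neg h2, if_neg h3]
    · refine ⟨⟨t.val, h3⟩, Finset.mem_univ _, ?_⟩
      simp only [N]
      rw [if_pos trivial]
      have e1 : (15 : Fin 17) = t' := Fin.ext h2.symm
      have e2 : β - c t.val = β' := by rw [h1]; ring
      rw [e1, e2]
    · refine ⟨⟨(t.val + 12) % 13, by omega⟩, Finset.mem_univ _, ?_⟩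
      simp only [N]
      rw [if_neg (by omega), if_pos (by omega), dif_neg (by omega)]
      have e1 : (16 : Fin 17) = t' := Fin.ext h2.symm
      have e2 : β - c t.val = β' := by rw [h1]; ring
      rw [e1, e2]
  · exact hp.elim
  · obtain ⟨h1, h2⟩ := hp
    have hs := s.2
    refine ⟨⟨(t.val + 12) % 13, by omega⟩, Finset.mem_univ _, ?_⟩
    simp only [N]
    rw [if_neg (by omega), if_pos (by omega), dif_pos (by omega), ← h2]
    congr 1
    exact Fin.ext h1.symm

lemma crit_head {α β : F} {t : Fin 17} (ht : t.val < 13) : Crit (a α β t) (head α β t) := by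
  classical
  intro hall
  let H : Fin 17 → Vt := fun τ => if τ.val < 13 then head α β τ else a α β τ
  let I : Finset (Fin 17) := (Finset.univ : Finset (Fin 17)).filter (fun t => t ≠ 13 ∧ t ≠ 14)
  have h13 : ((13 : Fin 17) : ℕ) = 13 := rfl
  have h14 : ((14 : Fin 17) : ℕ) = 14 := rfl
  have hI : I.card = 15 := by decide
  let S : Finset Vt := (I.image H).erase (head α β t)
  have hmem : head α β t ∈ I.image H := by
    rw [Finset.mem_image]
    refine ⟨t, ?_, ?_⟩
    · rw [Finset.mem_filter]
      refine ⟨Finset.mem_univ _, ?_, ?_⟩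
      · rintro rfl; omega
      · rintro rfl; omega
    · simp only [H]; rw [if_pos ht]
  have hS : S.card < 15 := by
    have h1 := Finset.card_erase_lt_of_mem hmem
    have h2 := Finset.card_image_le (s := I) (f := H)
    show ((I.image H).erase (head α β t)).card < 15
    omega
  have hu : a α β t ∉ S := by
    intro h
    obtain ⟨τ, -, h2⟩ := Finset.mem_image.1 (Finset.mem_of_mem_erase h)
    simp only [H] at h2
    split_ifs at h2 with c1
    · exact head_ne_a h2
    · injection h2 with _ _ e3
      rw [e3] at c1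
      exact c1 ht
  have h1 := hall S hS (a α β t) (head α β t) hu (Finset.notMem_erase _ _)
  have key : ∀ w, Relation.ReflTransGen (fun p q => p ∉ S ∧ q ∉ S ∧ adj p q ∧
      ¬ (p = a α β t ∧ q = head α β t)) (a α β t) w → ∃ t' : Fin 17, t'.val < 15 ∧ w = a α β t' := by
    intro w hw
    induction hw with
    | refl => exact ⟨t, by omega, rfl⟩
    | @tail p q _ h2 ih =>
      obtain ⟨t', ht', rfl⟩ := ih
      obtain ⟨h3, h4, h5, h6⟩ := h2
      -- an exit through the head of `t'`
      have exit : t'.val < 13 → q = head α β t' → False := by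
        intro h13' hq
        by_cases htt : t' = t
        · subst htt
          exact h6 ⟨rfl, hq⟩
        · apply h4
          rw [Finset.mem_erase]
          refine ⟨?_, ?_⟩
          · rw [hq]
            intro e
            exact htt (head_inj (Or.inl h13') (Or.inl ht) e)
          · rw [Finset.mem_image]
            refine ⟨t', ?_, ?_⟩
            · rw [Finset.mem_filter]
              refine ⟨Finset.mem_univ _, ?_, ?_⟩
              · rintro rfl; omega
              · rintro rfl; omega
            · simp only [H]; rw [if_pos h13', hq]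
      rcases q with ⟨α', β', t''⟩ | ⟨α', β', t''⟩ | ⟨s, v⟩
      · obtain ⟨rfl, h⟩ := h5
        rcases h with ⟨rfl, -⟩ | ⟨-, h⟩
        · by_cases h15 : t''.val < 15
          · exact ⟨t'', h15, rfl⟩
          · exfalso
            apply h4
            rw [Finset.mem_erase]
            refine ⟨fun e => head_ne_a e.symm, ?_⟩
            rw [Finset.mem_image]
            refine ⟨t'', ?_, ?_⟩
            · rw [Finset.mem_filter]
              refine ⟨Finset.mem_univ _, ?_, ?_⟩
              · rintro rfl; omega
              · rintro rfl; omega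
            · simp only [H]; rw [if_neg (by omega)]
        · omega
      · exfalso
        obtain ⟨rfl, h⟩ := h5
        rcases h with ⟨rfl, ⟨h7, h8⟩ | ⟨h7, h8⟩⟩ | ⟨h7, h8, h9, h10⟩ | ⟨h7, h8, h9, h10⟩
        · apply exit (by omega)
          unfold head
          rw [if_neg (by omega), if_pos h7]
          have : t'' = 15 := Fin.ext h8
          rw [this]
        · omega
        · apply exit h9
          unfold head
          rw [if_neg (by omega), if_neg (by omega), if_pos h9, h7]
          have : t'' = 16 := Fin.ext h10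
          rw [this]
        · omega
      · exfalso
        obtain ⟨h7, h8, h9⟩ := h5
        apply exit (by omega)
        unfold head
        rw [if_pos h7, h9]
        have : s = 0 := Fin.ext h8
        rw [this]
  obtain ⟨t', -, h2⟩ := key _ h1
  exact head_ne_a h2

theorem critical {x y : Vt} (h : adj x y) : Crit x y := by
  rcases y with ⟨α', β', t'⟩ | ⟨α', β', t'⟩ | ⟨s', v'⟩
  · obtain ⟨N, h1, h2⟩ := in_a α' β' t'
    exact crit_in h N h1 h2
  · rcases x with ⟨α, β, t⟩ | ⟨α, β, t⟩ | ⟨s, v⟩
    · obtain ⟨rfl, h⟩ := h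
      rcases h with ⟨rfl, ⟨h7, h8⟩ | ⟨h7, h8⟩⟩ | ⟨h7, h8, h9, h10⟩ | ⟨h7, h8, h9, h10⟩
      · have e : b α' β' t' = head α' β' t := by
          unfold head
          rw [if_neg (by omega), if_pos h7]
          have : t' = 15 := Fin.ext h8
          rw [this]
        rw [e]
        exact crit_head (by omega)
      · apply crit_sw
        have e : sw (a α' β' t) = head α' β' t' := by
          unfold head
          rw [if_neg (by omega), if_pos h8]
          have : t = 15 := Fin.ext h7
          rw [this]; rfl
        rw [e]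
        exact crit_head (by omega)
      · have e : b α' β' t' = head α' β t := by
          unfold head
          rw [if_neg (by omega), if_neg (by omega), if_pos h9, h7]
          have : t' = 16 := Fin.ext h10
          rw [this]
        rw [e]
        exact crit_head h9
      · apply crit_sw
        have e : sw (a α' β t) = head α' β' t' := by
          unfold head
          rw [if_neg (by omega), if_neg (by omega), if_pos h9, h7]
          have : t = 16 := Fin.ext h10
          rw [this]; rfl
        rw [e]
        exact crit_head h9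
    · apply crit_sw
      obtain ⟨N, h1, h2⟩ := in_a α β t
      exact crit_in (by rw [adj_sw]; exact h) N h1 h2
    · apply crit_sw
      obtain ⟨h1, h2, h3⟩ := h
      have e : sw (z s v) = head α' β' t' := by
        unfold head
        rw [if_pos h1, h3]
        have : s = 0 := Fin.ext h2
        rw [this]; rfl
      rw [e]
      exact crit_head (by omega)
  · rcases x with ⟨α, β, t⟩ | ⟨α, β, t⟩ | ⟨s, v⟩
    · obtain ⟨h1, h2, h3⟩ := h
      have e : z s' v' = head α β t := by
        unfold head
        rw [if_pos h1, h3]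
        have : s' = 0 := Fin.ext h2
        rw [this]
      rw [e]
      exact crit_head (by omega)
    · apply crit_sw
      obtain ⟨N, h1, h2⟩ := in_a α β t
      exact crit_in (by rw [adj_sw]; exact h) N h1 h2
    · exact h.elim

lemma out_ge {x : Vt} {ι : Type*} (I : Finset ι) (e : ι → Vt) (k : ℕ) (hI : k ≤ I.card)
    (hS : ∀ i ∈ I, adj x (e i)) (hinj : ∀ i ∈ I, ∀ j ∈ I, e i = e j → i = j) :
    k ≤ {y | adj x y}.ncard := by
  classical
  have e1 : {y | adj x y} = ((Finset.univ.filter (fun y => adj x y) : Finset Vt) : Set Vt) := by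
    ext y; simp
  rw [e1, Set.ncard_coe_finset]
  exact fifteen_le I e k hI (fun i hi => Finset.mem_filter.2 ⟨Finset.mem_univ _, hS i hi⟩) hinj

lemma out_a (α β : F) (t : Fin 17) : 16 ≤ {y | adj (a α β t) y}.ncard := by
  classical
  have l := t.2
  by_cases h15 : t.val < 15
  · refine out_ge ((Finset.univ : Finset (Fin 17)).erase t)
      (fun τ => if t.val < 13 ∧ τ.val = (t.val + 1) % 13 then head α β t else a α β τ) 16 ?_ ?_ ?_
    · rw [Finset.card_erase_of_mem (Finset.mem_univ _)]; simp
    · intro τ hτ
      have hne : t.val ≠ τ.val := fun h => (Finset.mem_erase.1 hτ).1 (Fin.ext h.symm)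
      split_ifs with c1
      · exact head_adj (Or.inl c1.1)
      · exact ⟨rfl, Or.inl ⟨rfl, h15, hne, c1⟩⟩
    · intro τ _ τ' _ h
      split_ifs at h with c1 c2 c2
      · apply Fin.ext; omega
      · exact absurd h head_ne_a
      · exact absurd h.symm head_ne_a
      · injection h
  · by_cases h : t.val = 15
    · let ca : Fin 16 → Fin 17 := fun τ => ⟨τ.val, by omega⟩
      refine out_ge (Finset.univ : Finset (Fin 16))
        (fun τ => if τ.val < 15 then a α (β + c τ.val) (ca τ) else b α β 1) 16 (by simp) ?_ ?_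
      · intro τ _
        split_ifs with c1
        · exact ⟨rfl, Or.inr ⟨rfl, Or.inl ⟨h, c1⟩⟩⟩
        · exact ⟨rfl, Or.inl ⟨rfl, Or.inr ⟨h, rfl⟩⟩⟩
      · intro τ _ τ' _ h
        have l1 := τ.2
        have l2 := τ'.2
        split_ifs at h with c1 c2 c2
        · injection h with _ _ e3
          have := congrArg Fin.val e3
          exact Fin.ext this
        · apply Fin.ext; omega
    · have h16 : t.val = 16 := by omega
      refine out_ge ((Finset.univ : Finset (Bool × Fin 17)).filter (fun p =>
        (p.1 = true ∧ 8 ≤ p.2.val ∧ p.2.val < 13) ∨ (p.1 = false ∧ 2 ≤ p.2.val ∧ p.2.val < 13)))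
        (fun p => if p.1 = true then a α (β + c p.2.val) p.2 else b α (β - c p.2.val) p.2) 16
        (by decide) ?_ ?_
      · rintro ⟨p, τ⟩ hp
        rw [Finset.mem_filter] at hp
        rcases hp.2 with ⟨hp1, hp2, hp3⟩ | ⟨hp1, hp2, hp3⟩
        · simp only at hp1
          subst hp1
          simp only [if_true]
          exact ⟨rfl, Or.inr ⟨rfl, Or.inr ⟨h16, hp2, hp3⟩⟩⟩
        · simp only at hp1
          subst hp1
          simp only [Bool.false_eq_true, if_false]
          refine ⟨rfl, Or.inr (Or.inr ⟨?_, hp2, hp3, h16⟩)⟩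
          ring
      · rintro ⟨p, τ⟩ hp ⟨p', τ'⟩ hp' hτ
        cases p <;> cases p' <;> simp only [Bool.false_eq_true, if_false, if_true] at hτ
        · injection hτ with _ _ e3
          rw [e3]
        · injection hτ
        · injection hτ
        · injection hτ with _ _ e3
          rw [e3]

lemma out_z (s : Fin 8) (v : F) : 16 ≤ {y | adj (z s v) y}.ncard := by
  classical
  have hcs : c s.val ≠ 0 := c_ne (by omega)
  let cs : Fin 17 := ⟨s.val, by omega⟩
  refine out_ge (Finset.univ : Finset F) (fun β => a ((v - β) / c s.val) β cs) 16 ?_ ?_ ?_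
  · rw [Finset.card_univ]
    show 16 ≤ Fintype.card (ZMod 29)
    rw [ZMod.card]; norm_num
  · intro β _
    refine ⟨rfl, ?_⟩
    show v = (v - β) / c s.val * c s.val + β
    field_simp
    ring
  · intro β _ β' _ h
    exact congrArg snd2 h

lemma in_b (α β : F) (t : Fin 17) : 16 ≤ {y | adj y (b α β t)}.ncard := by
  have h := out_a α β t
  have e : {y | adj (a α β t) y} = sw '' {y | adj y (b α β t)} := by
    ext y
    constructor
    · intro hy
      refine ⟨sw y, ?_, sw_sw y⟩
      have : adj (a α β t) (sw (sw y)) := by rw [sw_sw]; exact hy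
      exact (adj_sw (b α β t) (sw y)).1 this
    · rintro ⟨w, hw, rfl⟩
      exact (adj_sw (b α β t) w).2 hw
  rw [e, Set.ncard_image_of_injective _ sw_inj] at h
  exact h

theorem no_both (x : Vt) (h1 : {y | adj x y}.ncard = 15) (h2 : {y | adj y x}.ncard = 15) : False := by
  rcases x with ⟨α, β, t⟩ | ⟨α, β, t⟩ | ⟨s, v⟩
  · have := out_a α β t; omega
  · have := in_b α β t; omega
  · have := out_z s v; omega

end Pool.Agent.H31.Mader
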