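import Pool.Agent.H31.MaderBack

set_option autoImplicit false

namespace Pool.Agent.H31.Mader

open Vt

structure FwdCut (S : Finset Vt) (P : F → F → Fin 17 → Prop) : Prop where
  outA : ∀ α β t α' β' t', P α β t → adj (a α β t) (a α' β' t') → P α' β' t' ∨ a α' β' t' ∈ S
  outZ : ∀ α β t s v, P α β t → adj (a α β t) (z s v) → z s v ∈ S
  outB : ∀ α β t α' β' t', P α β t → adj (a α β t) (b α' β' t') → b α' β' t' ∈ S

variable {S : Finset Vt} {P : F → F → Fin 17 → Prop}

/-- the arc leaving the leaf -/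
def head (α β : F) (t : Fin 17) : Vt :=
  if t.val = 0 then z 0 β else if t.val = 1 then b α β 15 else
    if t.val < 13 then b α (β + c t.val) 16 else if t.val = 15 then b α β 1 else b α (β - c 2) 2

lemma head_adj {α β : F} {t : Fin 17} (h : t.val < 13 ∨ 15 ≤ t.val) :
    adj (a α β t) (head α β t) := by
  unfold head
  have h15 : ((15 : Fin 17) : ℕ) = 15 := rfl
  have h16 : ((16 : Fin 17) : ℕ) = 16 := rfl
  have h1 : ((1 : Fin 17) : ℕ) = 1 := rfl
  have h2 : ((2 : Fin 17) : ℕ) = 2 := rfl
  split_ifs with c1 c2 c3 c4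
  · exact ⟨c1, rfl, rfl⟩
  · exact ⟨rfl, Or.inl ⟨rfl, Or.inl ⟨c2, rfl⟩⟩⟩
  · exact ⟨rfl, Or.inr (Or.inl ⟨rfl, by omega, c3, rfl⟩)⟩
  · exact ⟨rfl, Or.inl ⟨rfl, Or.inr ⟨c4, rfl⟩⟩⟩
  · refine ⟨rfl, Or.inr (Or.inr ⟨?_, by omega, by omega, by omega⟩)⟩
    rw [h2]; ring

lemma head_ne_a {α β α' β' : F} {t t' : Fin 17} : head α β t ≠ a α' β' t' := by
  unfold head
  split_ifs <;> intro h <;> injection h

lemma head_inj {α β : F} {t t' : Fin 17} (h : t.val < 13 ∨ 15 ≤ t.val)
    (h' : t'.val < 13 ∨ 15 ≤ t'.val) (e : head α β t = head α β t') : t = t' := by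
  unfold head at e
  have l := t.2
  have l' := t'.2
  have h15 : ((15 : Fin 17) : ℕ) = 15 := rfl
  have h16 : ((16 : Fin 17) : ℕ) = 16 := rfl
  have h1 : ((1 : Fin 17) : ℕ) = 1 := rfl
  have h2 : ((2 : Fin 17) : ℕ) = 2 := rfl
  apply Fin.ext
  split_ifs at e <;> first | omega | (injection e with e1 e2 e3; first | (have := congrArg Fin.val e3; omega) | exact c_inj (by omega) (by omega) (add_left_cancel e2))

lemma FwdCut.missed (h : FwdCut S P) {α β : F} {t t1 : Fin 17}
    (hP : ¬ P α β t) (hS : a α β t ∉ S) (h1 : P α β t1) (ht : t1.val < 15) :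
    t1.val < 13 ∧ t.val = (t1.val + 1) % 13 := by
  by_contra hcon
  have hne : t1.val ≠ t.val := by
    intro e
    have : t1 = t := Fin.ext e
    subst this
    exact hP h1
  have hadj : adj (a α β t1) (a α β t) := ⟨rfl, Or.inl ⟨rfl, ht, hne, hcon⟩⟩
  rcases h.outA _ _ _ _ _ _ h1 hadj with h2 | h2
  · exact hP h2
  · exact hS h2

lemma FwdCut.leaf (h : FwdCut S P) {α β : F} {t1 : Fin 17} (h1 : P α β t1) (ht1 : t1.val < 15) :
    15 ≤ S.card := by
  classical
  let e : Fin 17 → Vt := fun t =>
    if a α β t ∈ S then a α β t else if P α β t then head α β t else a α β 13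
  have h13 : ((13 : Fin 17) : ℕ) = 13 := rfl
  refine fifteen_le ((Finset.univ : Finset (Fin 17)).filter (fun t => t ≠ 13 ∧ t ≠ 14)) e 15
    (by decide) ?_ ?_
  · intro t ht
    rw [Finset.mem_filter] at ht
    have ht13 : t.val ≠ 13 := fun h => ht.2.1 (Fin.ext h)
    have ht14 : t.val ≠ 14 := fun h => ht.2.2 (Fin.ext h)
    simp only [e]
    split_ifs with c1 c2
    · exact c1
    · have hadj : adj (a α β t) (head α β t) := head_adj (by omega)
      rcases hh : head α β t with ⟨α', β', t'⟩ | ⟨α', β', t'⟩ | ⟨s, v⟩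
      · exact absurd hh head_ne_a
      · rw [hh] at hadj; exact h.outB _ _ _ _ _ _ c2 hadj
      · rw [hh] at hadj; exact h.outZ _ _ _ _ _ c2 hadj
    · have q1 := h.missed c2 c1 h1 ht1
      have hadj : adj (a α β t1) (a α β 13) := ⟨rfl, Or.inl ⟨rfl, by omega, by omega, by omega⟩⟩
      rcases h.outA _ _ _ _ _ _ h1 hadj with h2 | h2
      · exfalso
        have q2 := h.missed c2 c1 h2 (by omega)
        omega
      · exact h2
  · intro t ht t' ht' hτ
    rw [Finset.mem_filter] at ht ht'
    have ht13 : t.val ≠ 13 := fun h => ht.2.1 (Fin.ext h)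
    have ht14 : t.val ≠ 14 := fun h => ht.2.2 (Fin.ext h)
    have ht13' : t'.val ≠ 13 := fun h => ht'.2.1 (Fin.ext h)
    have ht14' : t'.val ≠ 14 := fun h => ht'.2.2 (Fin.ext h)
    simp only [e] at hτ
    by_cases c1 : a α β t ∈ S
    · rw [if_pos c1] at hτ
      split_ifs at hτ with c4 c5
      · injection hτ
      · exact absurd hτ.symm head_ne_a
      · injection hτ with _ _ e3
        exact absurd e3 ht.2.1
    · rw [if_neg c1] at hτ
      by_cases c2 : P α β t
      · rw [if_pos c2] at hτ
        split_ifs at hτ with c4 c5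
        · exact absurd hτ head_ne_a
        · exact head_inj (by omega) (by omega) hτ
        · exact absurd hτ head_ne_a
      · rw [if_neg c2] at hτ
        have q1 := h.missed c2 c1 h1 ht1
        split_ifs at hτ with c4 c5
        · injection hτ with _ _ e3
          exact absurd e3.symm ht'.2.1
        · exact absurd hτ.symm head_ne_a
        · have q2 := h.missed c5 c4 h1 ht1
          apply Fin.ext
          omega

lemma FwdCut.card (h : FwdCut S P) {α β : F} {t : Fin 17} (h1 : P α β t) : 15 ≤ S.card := by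
  classical
  by_cases hall : ∃ α' β' t', P α' β' t' ∧ t'.val < 15
  · obtain ⟨α', β', t', h2, h3⟩ := hall
    exact h.leaf h2 h3
  · push Not at hall
    have hin : ∀ α' β' (t' : Fin 17), t'.val < 15 → adj (a α β t) (a α' β' t') → a α' β' t' ∈ S := by
      intro α' β' t' ht' hadj
      rcases h.outA _ _ _ _ _ _ h1 hadj with h2 | h2
      · have := hall _ _ _ h2
        omega
      · exact h2
    have ht := hall _ _ _ h1
    have l := t.2
    by_cases h15 : t.val = 15
    · let ca : Fin 15 → Fin 17 := fun τ => ⟨τ.val, by omega⟩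
      refine fifteen_le (Finset.univ : Finset (Fin 15)) (fun τ => a α (β + c τ.val) (ca τ)) 15
        (by simp) ?_ ?_
      · intro τ _
        exact hin _ _ _ τ.2 ⟨rfl, Or.inr ⟨rfl, Or.inl ⟨h15, τ.2⟩⟩⟩
      · intro τ _ τ' _ hτ
        injection hτ with _ _ e3
        have := congrArg Fin.val e3
        exact Fin.ext this
    · have h16 : t.val = 16 := by omega
      refine fifteen_le ((Finset.univ : Finset (Bool × Fin 17)).filter (fun p =>
        (p.1 = true ∧ 8 ≤ p.2.val ∧ p.2.val < 13) ∨ (p.1 = false ∧ 2 ≤ p.2.val ∧ p.2.val < 13)))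
        (fun p => if p.1 = true then a α (β + c p.2.val) p.2 else b α (β - c p.2.val) p.2) 15
        (by decide) ?_ ?_
      · rintro ⟨p, τ⟩ hp
        rw [Finset.mem_filter] at hp
        rcases hp.2 with ⟨hp1, hp2, hp3⟩ | ⟨hp1, hp2, hp3⟩
        · simp only at hp1
          subst hp1
          simp only [if_true]
          exact hin _ _ _ (by simp only at hp3; omega)
            ⟨rfl, Or.inr ⟨rfl, Or.inr ⟨h16, hp2, hp3⟩⟩⟩
        · simp only at hp1
          subst hp1
          simp only [Bool.false_eq_true, if_false]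
          refine h.outB _ _ _ _ _ _ h1 ⟨rfl, Or.inr (Or.inr ⟨?_, hp2, hp3, h16⟩)⟩
          ring
      · rintro ⟨p, τ⟩ hp ⟨p', τ'⟩ hp' hτ
        cases p <;> cases p' <;> simp only [Bool.false_eq_true, if_false, if_true] at hτ
        · injection hτ with _ _ e3
          rw [e3]
        · injection hτ
        · injection hτ
        · injection hτ with _ _ e3
          rw [e3]

/-- Every surviving vertex on the `b`-side reaches a surviving point. -/
lemma b_to_z (hS : S.card < 15) {α β : F} {t : Fin 17} (hm : b α β t ∉ S) :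
    ∃ s v, z s v ∉ S ∧ Reach S (b α β t) (z s v) := by
  have h1 : a α β t ∉ S.image sw := by rw [mem_sw]; exact hm
  obtain ⟨s, v, h2, h3⟩ := from_z (S := S.image sw) (by rw [card_sw]; exact hS) h1
  rw [mem_sw] at h2
  exact ⟨s, v, h2, reach_sw h3⟩

lemma a_to_z (hS : S.card < 15) {α β : F} {t : Fin 17} (hm : a α β t ∉ S) :
    ∃ s v, z s v ∉ S ∧ Reach S (a α β t) (z s v) := by
  by_contra hcon
  push Not at hcon
  let P : F → F → Fin 17 → Prop := fun α β t => a α β t ∉ S ∧
    ∀ s v, z s v ∉ S → ¬ Reach S (a α β t) (z s v)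
  have hc : FwdCut S P := by
    constructor
    · intro α β t α' β' t' h1 hadj
      by_cases h2 : a α' β' t' ∈ S
      · exact Or.inr h2
      · refine Or.inl ⟨h2, fun s v hz hr => h1.2 s v hz (hr.head ⟨h1.1, h2, hadj⟩)⟩
    · intro α β t s v h1 hadj
      by_contra h2
      exact h1.2 s v h2 (Relation.ReflTransGen.single ⟨h1.1, h2, hadj⟩)
    · intro α β t α' β' t' h1 hadj
      by_contra h2
      obtain ⟨s, v, h3, h4⟩ := b_to_z hS h2
      exact h1.2 s v h3 (h4.head ⟨h1.1, h2, hadj⟩)
  have := hc.card (α := α) (β := β) (t := t) ⟨hm, hcon⟩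
  omega

lemma b_from_z (hS : S.card < 15) {α β : F} {t : Fin 17} (hm : b α β t ∉ S) :
    ∃ s v, z s v ∉ S ∧ Reach S (z s v) (b α β t) := by
  have h1 : a α β t ∉ S.image sw := by rw [mem_sw]; exact hm
  obtain ⟨s, v, h2, h3⟩ := a_to_z (S := S.image sw) (by rw [card_sw]; exact hS) h1
  rw [mem_sw] at h2
  exact ⟨s, v, h2, reach_sw h3⟩

def snd2 : Vt → F
  | .a _ β _ => β
  | .b _ β _ => β
  | .z _ v => v

/-- The route from a point through the leaf of the line `(α, β)` with second coordinate `β`. -/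
lemma bad_card (S : Finset Vt) (s : Fin 8) (v : F) (hz : z s v ∉ S) [DecidablePred fun β => ¬ Reach S (z s v) (z 0 β)] :
    ((Finset.univ : Finset F).filter (fun β => ¬ Reach S (z s v) (z 0 β))).card ≤ S.card := by
  classical
  let cs : Fin 17 := ⟨s.val, by omega⟩
  have hcs : c s.val ≠ 0 := c_ne (by omega)
  let α : F → F := fun β => (v - β) / c s.val
  have hα : ∀ β, v = α β * c s.val + β := by
    intro β
    simp only [α]
    field_simp
    ring
  let e : F → Vt := fun β => if a (α β) β cs ∈ S then a (α β) β cs else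
    if a (α β) β 0 ∈ S then a (α β) β 0 else z 0 β
  refine Finset.card_le_card_of_injOn e ?_ ?_
  · intro β hβ
    rw [Finset.mem_coe, Finset.mem_filter] at hβ
    show e β ∈ S
    simp only [e]
    split_ifs with c1 c2
    · exact c1
    · exact c2
    · by_contra c3
      apply hβ.2
      have s1 : R S (z s v) (a (α β) β cs) := ⟨hz, c1, rfl, hα β⟩
      have s3 : R S (a (α β) β 0) (z 0 β) := ⟨c2, c3, rfl, rfl, rfl⟩
      by_cases hs : s.val = 0
      · have : cs = 0 := Fin.ext hs
        rw [this] at s1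
        exact (Relation.ReflTransGen.single s1).tail s3
      · have s2 : R S (a (α β) β cs) (a (α β) β 0) := by
          refine ⟨c1, c2, rfl, Or.inl ⟨rfl, ?_, ?_, ?_⟩⟩
          · show s.val < 15; omega
          · show s.val ≠ 0; exact hs
          · show ¬ (s.val < 13 ∧ 0 = (s.val + 1) % 13)
            omega
        exact ((Relation.ReflTransGen.single s1).tail s2).tail s3
  · intro β _ β' _ h
    simp only [e] at h
    split_ifs at h <;> exact congrArg snd2 h

lemma z_to_z (hS : S.card < 15) {s s' : Fin 8} {v v' : F} (h : z s v ∉ S) (h' : z s' v' ∉ S) :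
    Reach S (z s v) (z s' v') := by
  classical
  have k1 := bad_card S s v h
  have k2 := bad_card (S.image sw) s' v' (by rw [mem_sw]; exact h')
  rw [card_sw] at k2
  have : ∃ β : F, Reach S (z s v) (z 0 β) ∧ Reach (S.image sw) (z s' v') (z 0 β) := by
    by_contra hcon
    push Not at hcon
    have k3 : (Finset.univ : Finset F) ⊆
        (Finset.univ : Finset F).filter (fun β => ¬ Reach S (z s v) (z 0 β)) ∪
        (Finset.univ : Finset F).filter (fun β => ¬ Reach (S.image sw) (z s' v') (z 0 β)) := by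
      intro β _
      rw [Finset.mem_union, Finset.mem_filter, Finset.mem_filter]
      by_cases h1 : Reach S (z s v) (z 0 β)
      · exact Or.inr ⟨Finset.mem_univ _, hcon β h1⟩
      · exact Or.inl ⟨Finset.mem_univ _, h1⟩
    have k4 := Finset.card_le_card k3
    have k5 := Finset.card_union_le ((Finset.univ : Finset F).filter (fun β => ¬ Reach S (z s v) (z 0 β)))
        ((Finset.univ : Finset F).filter (fun β => ¬ Reach (S.image sw) (z s' v') (z 0 β)))
    have k6 : (Finset.univ : Finset F).card = 29 := by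
      rw [Finset.card_univ]; exact ZMod.card 29
    omega
  obtain ⟨β, h1, h2⟩ := this
  exact h1.trans (reach_sw h2)

theorem connected (hS : S.card < 15) {x y : Vt} (hx : x ∉ S) (hy : y ∉ S) : Reach S x y := by
  have h1 : ∃ s v, z s v ∉ S ∧ Reach S x (z s v) := by
    cases x with
    | a α β t => exact a_to_z hS hx
    | b α β t => exact b_to_z hS hx
    | z s v => exact ⟨s, v, hx, Relation.ReflTransGen.refl⟩
  have h2 : ∃ s v, z s v ∉ S ∧ Reach S (z s v) y := by
    cases y with
    | a α β t => exact from_z hS hy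
    | b α β t => exact b_from_z hS hy
    | z s v => exact ⟨s, v, hy, Relation.ReflTransGen.refl⟩
  obtain ⟨s, v, h3, h4⟩ := h1
  obtain ⟨s', v', h5, h6⟩ := h2
  exact (h4.trans (z_to_z hS h3 h5)).trans h6

end Pool.Agent.H31.Mader
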